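import Mathlib
import Pool.Agent.X68.Penney

/-!
# MP_988dcd_pr, Q1: in Penney's game against a uniformly random first player, the winning
probability of the second player is `2/3 + O(n / 2^n)`
-/

namespace Pool.Agent.Results.MP_988dcd_pr.TwoThirds

open Pool.Agent.X68.Penney MeasureTheory

/-- The word `X` occurs in the sequence `ω` of tosses, starting at the toss number `m`. -/
def Occurs {n : ℕ} (X : Fin n → Bool) (ω : ℕ → Bool) (m : ℕ) : Prop := ∀ j : Fin n, ω (m + j) = X j

/-- `P(B ≺ A)`: the probability that `B` appears before `A`. -/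
noncomputable def probBefore {n : ℕ} (B A : Fin n → Bool) : ℝ :=
  tosses.real {ω | ∃ m, Occurs B ω m ∧ ∀ m' ≤ m, ¬ Occurs A ω m'}

/-- The winning probability of player II if player I chooses a word uniformly at random and
player II answers with a best response. -/
noncomputable def pRandOpt (n : ℕ) : ℝ :=
  (∑ A : Fin n → Bool, ⨆ B : {B : Fin n → Bool // B ≠ A}, probBefore B.1 A) / 2 ^ n

/-! ### The link with the general relation -/

theorem probBefore_eq {n : ℕ} {B A : Fin n → Bool} {Z : Bool → ℕ → Bool}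
    (hB : ∀ j : Fin n, Z false j = B j) (hA : ∀ j : Fin n, Z true j = A j) (hne : B ≠ A) :
    Distinct n Z ∧ probBefore B A = prob n Z false := by
  have hd : Distinct n Z := by
    obtain ⟨j, hj⟩ := Function.ne_iff.mp hne
    exact ⟨j, j.2, by rw [hB, hA]; exact hj⟩
  refine ⟨hd, ?_⟩
  have oB : ∀ ω m, Occurs B ω m ↔ occ n (Z false) ω m := fun ω m =>
    ⟨fun h j hj => by rw [h ⟨j, hj⟩, ← hB], fun h j => by rw [h j j.2, hB]⟩
  have oA : ∀ ω m, Occurs A ω m ↔ occ n (Z true) ω m := fun ω m =>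
    ⟨fun h j hj => by rw [h ⟨j, hj⟩, ← hA], fun h j => by rw [h j j.2, hA]⟩
  unfold probBefore prob
  congr 1
  ext ω
  constructor
  · rintro ⟨m, h1, h2⟩
    classical
    have hex : ∃ m, occ n (Z false) ω m := ⟨m, (oB ω m).mp h1⟩
    have hle : Nat.find hex ≤ m := Nat.find_min' hex ((oB ω m).mp h1)
    refine Set.mem_iUnion.mpr ⟨Nat.find hex + n, Nat.find hex, rfl, Nat.find_spec hex, ?_⟩
    intro m' hm' b ho
    cases b with
    | false => exact Nat.find_min hex hm' ho
    | true => exact h2 m' (by omega) ((oA ω m').mpr ho)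
  · intro h
    obtain ⟨t, m, -, h1, h2⟩ := Set.mem_iUnion.mp h
    refine ⟨m, (oB ω m).mpr h1, fun m' hm' ho => ?_⟩
    rcases Nat.lt_or_eq_of_le hm' with hlt | rfl
    · exact h2 m' hlt true ((oA ω m').mp ho)
    · exact absurd (hd.not_both h1 ((oA ω m').mp ho)) (by decide)

/-! ### Estimates for the correlations -/

open Classical in
/-- A sum of the weights `2^(k-n)` over the `k ≤ r` with a given property. -/
noncomputable def wsum (n r : ℕ) (p : ℕ → Prop) : ℝ :=
  ∑ k ∈ Finset.Icc 1 r, if p k then (1 / 2 : ℝ) ^ (n - k) else 0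

theorem wsum_nonneg (n r : ℕ) (p : ℕ → Prop) : 0 ≤ wsum n r p := by
  unfold wsum
  apply Finset.sum_nonneg
  intro k _
  split_ifs <;> positivity

theorem wsum_le {n r : ℕ} {p q : ℕ → Prop} (h : ∀ k ∈ Finset.Icc 1 r, p k → q k) :
    wsum n r p ≤ wsum n r q := by
  unfold wsum
  apply Finset.sum_le_sum
  intro k hk
  split_ifs with h1 h2 h2
  · exact le_rfl
  · exact absurd (h k hk h1) h2
  · positivity
  · exact le_rfl

theorem wsum_succ (n r : ℕ) (p : ℕ → Prop) [Decidable (p (r + 1))] :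
    wsum n (r + 1) p = wsum n r p + if p (r + 1) then (1 / 2 : ℝ) ^ (n - (r + 1)) else 0 := by
  unfold wsum
  rw [Finset.sum_Icc_succ_top (by omega)]
  congr 1
  split_ifs <;> rfl

theorem wsum_true (n r : ℕ) (hr : r ≤ n) :
    wsum n r (fun _ => True) = 2 * (1 / 2) ^ (n - r) - 2 * (1 / 2) ^ n := by
  induction r with
  | zero => simp [wsum]
  | succ r ih =>
    rw [wsum_succ, ih (by omega), if_pos trivial]
    have : n - r = (n - (r + 1)) + 1 := by omega
    rw [this, pow_succ]
    ring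

theorem wsum_le_true (n r : ℕ) (p : ℕ → Prop) : wsum n r p ≤ wsum n r (fun _ => True) :=
  wsum_le fun _ _ _ => trivial

theorem corr_eq_wsum (n : ℕ) (X Y : ℕ → Bool) : corr n X Y = wsum n n (ov n X Y) := rfl

theorem corr_self {n : ℕ} (hn : 1 ≤ n) (X : ℕ → Bool) :
    corr n X X = wsum n (n - 1) (ov n X X) + 1 := by
  classical
  obtain ⟨m, rfl⟩ := Nat.exists_eq_add_of_le' hn
  rw [corr_eq_wsum, wsum_succ, if_pos]
  · simp
  · intro j hj
    simp

theorem corr_ne {n : ℕ} (hn : 1 ≤ n) {X Y : ℕ → Bool} (h : ∃ j < n, X j ≠ Y j) :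
    corr n X Y = wsum n (n - 1) (ov n X Y) := by
  classical
  obtain ⟨m, rfl⟩ := Nat.exists_eq_add_of_le' hn
  rw [corr_eq_wsum, wsum_succ, if_neg]
  · simp
  · intro ho
    obtain ⟨j, hj, hne⟩ := h
    have := ho j hj
    simp only [Nat.sub_self, Nat.zero_add] at this
    exact hne this

/-- The shifted word: the complement of the first letter of `X`, followed by `X`. -/
def star (X : ℕ → Bool) : ℕ → Bool := fun j => if j = 0 then !(X 0) else X (j - 1)

/-- The upper estimate for `corr B A`. -/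
theorem corr_le {n : ℕ} (hn : 2 ≤ n) {B A : ℕ → Bool} (h : ∃ j < n, B j ≠ A j) :
    corr n B A ≤ 1 / 2 + wsum n (n - 2) (ov (n - 1) A A) := by
  classical
  obtain ⟨m, rfl⟩ := Nat.exists_eq_add_of_le' hn
  rw [corr_ne (by omega) h]
  have e : m + 2 - 1 = m + 1 := by omega
  have e2 : m + 2 - 2 = m := by omega
  rw [e, e2, wsum_succ]
  have e3 : m + 2 - (m + 1) = 1 := by omega
  rw [e3]
  by_cases hov : ov (m + 2) B A (m + 1)
  · rw [if_pos hov]
    have h1 : wsum (m + 2) m (ov (m + 2) B A) ≤ wsum (m + 2) m (ov (m + 1) A A) := by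
      apply wsum_le
      intro k hk hk2 j hj
      have hkm := (Finset.mem_Icc.mp hk).2
      have h3 := hov (m + 1 - k + j) (by omega)
      have h4 := hk2 j hj
      rw [← h4, ← h3]
      congr 1
      omega
    linarith
  · rw [if_neg hov]
    have h1 := wsum_le_true (m + 2) m (ov (m + 2) B A)
    have h2 := wsum_true (m + 2) m (by omega)
    have h3 := wsum_nonneg (m + 2) m (ov (m + 1) A A)
    have e4 : m + 2 - m = 2 := by omega
    rw [e4] at h2
    have h5 : (0 : ℝ) < (1 / 2) ^ (m + 2) := by positivity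
    rw [h2] at h1
    linarith

theorem star_corr {n : ℕ} (hn : 2 ≤ n) (A : ℕ → Bool) : 1 / 2 ≤ corr n (star A) A := by
  classical
  obtain ⟨m, rfl⟩ := Nat.exists_eq_add_of_le' hn
  rw [corr_ne (by omega) ⟨0, by omega, by simp [star]⟩]
  have e : m + 2 - 1 = m + 1 := by omega
  rw [e, wsum_succ]
  have e3 : m + 2 - (m + 1) = 1 := by omega
  rw [e3, if_pos]
  · have := wsum_nonneg (m + 2) m (ov (m + 2) (star A) A)
    linarith
  · intro j _
    have e4 : m + 2 - (m + 1) + j = j + 1 := by omega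
    rw [e4]
    simp [star]

/-- The upper bound for the winning probability of a reply. -/
theorem upper {n : ℕ} (hn : 2 ≤ n) {Z : Bool → ℕ → Bool} (hZ : Distinct n Z) :
    prob n Z false ≤ 2 / 3 + (wsum n (n - 1) (ov n (Z true) (Z true)) +
      2 * wsum n (n - 2) (ov (n - 1) (Z true) (Z true))) / 3 := by
  have hc := conway hZ
  have ha := prob_add hZ
  have hb0 := prob_nonneg (n := n) (Z := Z) false
  have ha0 := prob_nonneg (n := n) (Z := Z) true
  have h1 := corr_self (by omega : 1 ≤ n) (Z true)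
  have h2 := corr_self (by omega : 1 ≤ n) (Z false)
  have h3 : corr n (Z false) (Z true) ≤ _ := corr_le hn hZ
  have h4 : 0 ≤ corr n (Z true) (Z false) := wsum_nonneg _ _ _
  have h5 := wsum_nonneg n (n - 1) (ov n (Z false) (Z false))
  set x := wsum n (n - 1) (ov n (Z true) (Z true)) with hx
  set y := wsum n (n - 2) (ov (n - 1) (Z true) (Z true)) with hy
  have hx0 : 0 ≤ x := wsum_nonneg _ _ _
  have hy0 : 0 ≤ y := wsum_nonneg _ _ _
  have hy1 : y ≤ 1 / 2 := by
    have e1 := wsum_le_true n (n - 2) (ov (n - 1) (Z true) (Z true))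
    have e2 := wsum_true n (n - 2) (by omega)
    have e3 : n - (n - 2) = 2 := by omega
    rw [e3] at e2
    have e4 : (0 : ℝ) < (1 / 2) ^ n := by positivity
    rw [e2] at e1
    linarith
  set b := prob n Z false with hb
  have ha' : prob n Z true = 1 - b := by linarith
  rw [ha'] at hc ha0
  have k1 : b * (1 / 2 - y) ≤ b * (corr n (Z false) (Z false) - corr n (Z false) (Z true)) :=
    mul_le_mul_of_nonneg_left (by linarith) hb0
  have k2 : (1 - b) * (corr n (Z true) (Z true) - corr n (Z true) (Z false)) ≤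
      (1 - b) * (1 + x) := mul_le_mul_of_nonneg_left (by linarith) ha0
  have k3 : b * (3 / 2 + x - y) ≤ 1 + x := by nlinarith
  have k4 : 1 + x ≤ (2 / 3 + (x + 2 * y) / 3) * (3 / 2 + x - y) := by
    have : (2 / 3 + (x + 2 * y) / 3) * (3 / 2 + x - y) - (1 + x) =
      x / 6 + y / 3 * (1 - 2 * y) + x ^ 2 / 3 + x * y / 3 := by ring
    have m1 : 0 ≤ y / 3 * (1 - 2 * y) := mul_nonneg (by linarith) (by linarith)
    have m2 : 0 ≤ x * y / 3 := by positivity
    have m3 : 0 ≤ x ^ 2 / 3 := by positivity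
    linarith
  have k5 : 0 < 3 / 2 + x - y := by linarith
  exact le_of_mul_le_mul_right (k3.trans k4) k5

/-- The lower bound for the winning probability of the reply `star A`. -/
theorem lower {n : ℕ} (hn : 2 ≤ n) {Z : Bool → ℕ → Bool} (hs : Z false = star (Z true)) :
    2 / 3 - 4 / 3 * (wsum n (n - 1) (ov n (Z true) (star (Z true))) +
      2 * wsum n (n - 1) (ov n (star (Z true)) (star (Z true)))) ≤ prob n Z false := by
  have hZ : Distinct n Z := ⟨0, by omega, by rw [hs]; simp [star]⟩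
  have hc := conway hZ
  have ha := prob_add hZ
  have hb0 := prob_nonneg (n := n) (Z := Z) false
  have ha0 := prob_nonneg (n := n) (Z := Z) true
  have h1 := corr_self (by omega : 1 ≤ n) (Z true)
  have h2 := corr_self (by omega : 1 ≤ n) (Z false)
  have h3 := star_corr hn (Z true)
  have h4 : corr n (Z true) (Z false) = _ := corr_ne (by omega : 1 ≤ n)
    (by obtain ⟨j, hj, hne⟩ := hZ; exact ⟨j, hj, hne.symm⟩)
  have h5 := wsum_nonneg n (n - 1) (ov n (Z true) (Z true))
  rw [← hs] at h3 ⊢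
  set h := wsum n (n - 1) (ov n (Z true) (Z false)) with hh
  set g := wsum n (n - 1) (ov n (Z false) (Z false)) with hg
  have hh0 : 0 ≤ h := wsum_nonneg _ _ _
  have hg0 : 0 ≤ g := wsum_nonneg _ _ _
  set b := prob n Z false with hb
  have ha' : prob n Z true = 1 - b := by linarith
  rw [ha'] at hc ha0
  by_cases hlarge : 1 / 2 ≤ h
  · linarith
  · push Not at hlarge
    have k1 : b * (corr n (Z false) (Z false) - corr n (Z false) (Z true)) ≤ b * (1 / 2 + g) :=
      mul_le_mul_of_nonneg_left (by linarith) hb0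
    have k2 : (1 - b) * (1 - h) ≤
        (1 - b) * (corr n (Z true) (Z true) - corr n (Z true) (Z false)) :=
      mul_le_mul_of_nonneg_left (by linarith) ha0
    have k3 : 1 - h ≤ b * (3 / 2 + g - h) := by nlinarith
    have k4 : (2 / 3 - 4 / 3 * (h + 2 * g)) * (3 / 2 + g - h) ≤ 1 - h := by
      have e : (2 / 3 - 4 / 3 * (h + 2 * g)) * (3 / 2 + g - h) - (1 - h) =
        -(10 / 3) * g - 5 / 3 * h - 8 / 3 * g ^ 2 + 4 / 3 * (g * h) + 4 / 3 * (h * h) := by ring
      have m1 : g * h ≤ g * (1 / 2) := mul_le_mul_of_nonneg_left hlarge.le hg0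
      have m2 : h * h ≤ h * (1 / 2) := mul_le_mul_of_nonneg_left hlarge.le hh0
      have m3 : 0 ≤ g ^ 2 := by positivity
      linarith
    have k5 : 0 < 3 / 2 + g - h := by linarith
    exact le_of_mul_le_mul_right (k4.trans k3) k5

/-! ### Counting -/

/-- The infinite extension of a finite word. -/
def wd {n : ℕ} (A : Fin n → Bool) : ℕ → Bool := fun j => if h : j < n then A ⟨j, h⟩ else false

theorem wd_fin {n : ℕ} (A : Fin n → Bool) (j : Fin n) : wd A j = A j := by simp [wd]

theorem eq_of_wd {n : ℕ} {A A' : Fin n → Bool} (h : ∀ i < n, wd A i = wd A' i) : A = A' := by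
  funext j
  rw [← wd_fin A j, ← wd_fin A' j, h j j.2]

open Classical in
theorem count_le {n m : ℕ} (P : (Fin n → Bool) → Prop) (g : Fin m → Fin n)
    (h : ∀ A A', P A → P A' → (∀ i, A (g i) = A' (g i)) → A = A') :
    ((Finset.univ.filter P).card : ℝ) ≤ 2 ^ m := by
  have h1 : (Finset.univ.filter P).card ≤ (Finset.univ : Finset (Fin m → Bool)).card := by
    apply Finset.card_le_card_of_injOn (fun A => A ∘ g)
    · intro A _
      exact Finset.mem_coe.mpr (Finset.mem_univ _)
    · intro A hA A' hA' he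
      have hA1 := (Finset.mem_filter.mp (Finset.mem_coe.mp hA)).2
      have hA2 := (Finset.mem_filter.mp (Finset.mem_coe.mp hA')).2
      exact h A A' hA1 hA2 fun i => congrFun he i
  rw [Finset.card_univ, Fintype.card_fun, Fintype.card_bool, Fintype.card_fin] at h1
  exact_mod_cast h1

/-- If at most `2^(n-k)` words have the property `p k`, for each `k ≤ r`, then the sum of the
weights over all words is at most `r`. -/
theorem sum_wsum_le {n r : ℕ} (p : (Fin n → Bool) → ℕ → Prop)
    (h : ∀ k, 1 ≤ k → k ≤ r → ∃ g : Fin (n - k) → Fin n, ∀ A A', p A k → p A' k →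
      (∀ i, A (g i) = A' (g i)) → A = A') :
    ∑ A : Fin n → Bool, wsum n r (p A) ≤ r := by
  classical
  unfold wsum
  rw [Finset.sum_comm]
  have h1 : ∀ k ∈ Finset.Icc 1 r, (∑ A : Fin n → Bool,
      if p A k then (1 / 2 : ℝ) ^ (n - k) else 0) ≤ 1 := by
    intro k hk
    obtain ⟨g, hg⟩ := h k (Finset.mem_Icc.mp hk).1 (Finset.mem_Icc.mp hk).2
    have h2 := count_le (fun A => p A k) g hg
    rw [← Finset.sum_filter, Finset.sum_const, nsmul_eq_mul]
    have h3 : (0 : ℝ) < (1 / 2) ^ (n - k) := by positivity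
    calc ((Finset.univ.filter fun A => p A k).card : ℝ) * (1 / 2) ^ (n - k)
        ≤ 2 ^ (n - k) * (1 / 2) ^ (n - k) := mul_le_mul_of_nonneg_right h2 h3.le
      _ = 1 := by rw [← mul_pow]; norm_num
  calc ∑ k ∈ Finset.Icc 1 r, (∑ A : Fin n → Bool, if p A k then (1 / 2 : ℝ) ^ (n - k) else 0)
      ≤ ∑ k ∈ Finset.Icc 1 r, (1 : ℝ) := Finset.sum_le_sum h1
    _ = r := by simp

/-- The choice of the coordinates `0, ..., n - k - 1`. -/
theorem determined1 {n k : ℕ} (hk1 : 1 ≤ k) (hk : k < n) (p : (Fin n → Bool) → Prop)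
    (h : ∀ A A' : Fin n → Bool, p A → p A' → ∀ i, n - k ≤ i → i < n →
      (∀ i' < i, wd A i' = wd A' i') → wd A i = wd A' i) :
    ∃ g : Fin (n - k) → Fin n, ∀ A A', p A → p A' → (∀ i, A (g i) = A' (g i)) → A = A' := by
  refine ⟨fun i => ⟨i, by omega⟩, fun A A' hA hA' hag => ?_⟩
  apply eq_of_wd
  intro i
  induction i using Nat.strong_induction_on with
  | _ i ih =>
    intro hi
    by_cases hlt : i < n - k
    · have := hag ⟨i, hlt⟩
      simp only [wd, hi, dif_pos]
      exact this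
    · exact h A A' hA hA' i (by omega) hi fun i' hi' => ih i' hi' (by omega)

/-- The choice of the coordinates `0, ..., n - k - 2` and `n - 1`. -/
theorem determined2 {n k : ℕ} (hk1 : 1 ≤ k) (hk : k < n) (p : (Fin n → Bool) → Prop)
    (h : ∀ A A' : Fin n → Bool, p A → p A' → ∀ i, n - k - 1 ≤ i → i < n - 1 →
      (∀ i' < i, wd A i' = wd A' i') → wd A i = wd A' i) :
    ∃ g : Fin (n - k) → Fin n, ∀ A A', p A → p A' → (∀ i, A (g i) = A' (g i)) → A = A' := by
  refine ⟨fun i => if (i : ℕ) < n - k - 1 then ⟨i, by omega⟩ else ⟨n - 1, by omega⟩,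
    fun A A' hA hA' hag => ?_⟩
  apply eq_of_wd
  intro i
  induction i using Nat.strong_induction_on with
  | _ i ih =>
    intro hi
    by_cases hlt : i < n - k - 1
    · have := hag ⟨i, by omega⟩
      simp only [hlt, if_true] at this
      simp only [wd, hi, dif_pos]
      exact this
    · by_cases hlast : i = n - 1
      · have := hag ⟨n - k - 1, by omega⟩
        simp only [lt_irrefl, if_false] at this
        subst hlast
        simp only [wd, hi, dif_pos]
        exact this
      · exact h A A' hA hA' i (by omega) (by omega) fun i' hi' => ih i' hi' (by omega)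

theorem sum_x {n : ℕ} (hn : 2 ≤ n) :
    ∑ A : Fin n → Bool, wsum n (n - 1) (ov n (wd A) (wd A)) ≤ ((n - 1 : ℕ) : ℝ) := by
  apply sum_wsum_le
  intro k hk1 hk
  apply determined1 hk1 (by omega) (fun A => ov n (wd A) (wd A) k)
  intro A A' hA hA' i hi1 hi2 ih
  have e : n - k + (i - (n - k)) = i := by omega
  have h1 := hA (i - (n - k)) (by omega)
  have h2 := hA' (i - (n - k)) (by omega)
  rw [e] at h1 h2
  rw [h1, h2]
  exact ih _ (by omega)

theorem sum_y {n : ℕ} (hn : 2 ≤ n) :
    ∑ A : Fin n → Bool, wsum n (n - 2) (ov (n - 1) (wd A) (wd A)) ≤ ((n - 2 : ℕ) : ℝ) := by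
  apply sum_wsum_le
  intro k hk1 hk
  apply determined2 hk1 (by omega) (fun A => ov (n - 1) (wd A) (wd A) k)
  intro A A' hA hA' i hi1 hi2 ih
  have e : n - 1 - k + (i - (n - 1 - k)) = i := by omega
  have h1 := hA (i - (n - 1 - k)) (by omega)
  have h2 := hA' (i - (n - 1 - k)) (by omega)
  rw [e] at h1 h2
  rw [h1, h2]
  exact ih _ (by omega)

theorem star_congr {X X' : ℕ → Bool} {i j : ℕ} (hij : j < i + 1) (hi : 1 ≤ i)
    (ih : ∀ i' < i, X i' = X' i') : star X j = star X' j := by
  unfold star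
  by_cases hj : j = 0
  · rw [if_pos hj, if_pos hj, ih 0 (by omega)]
  · rw [if_neg hj, if_neg hj, ih (j - 1) (by omega)]

theorem sum_h {n : ℕ} (hn : 2 ≤ n) :
    ∑ A : Fin n → Bool, wsum n (n - 1) (ov n (wd A) (star (wd A))) ≤ ((n - 1 : ℕ) : ℝ) := by
  apply sum_wsum_le
  intro k hk1 hk
  apply determined1 hk1 (by omega) (fun A => ov n (wd A) (star (wd A)) k)
  intro A A' hA hA' i hi1 hi2 ih
  have e : n - k + (i - (n - k)) = i := by omega
  have h1 := hA (i - (n - k)) (by omega)
  have h2 := hA' (i - (n - k)) (by omega)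
  rw [e] at h1 h2
  rw [h1, h2]
  exact star_congr (i := i) (by omega) (by omega) ih

theorem sum_g {n : ℕ} (hn : 2 ≤ n) :
    ∑ A : Fin n → Bool, wsum n (n - 1) (ov n (star (wd A)) (star (wd A))) ≤
      ((n - 1 : ℕ) : ℝ) := by
  apply sum_wsum_le
  intro k hk1 hk
  apply determined2 hk1 (by omega) (fun A => ov n (star (wd A)) (star (wd A)) k)
  intro A A' hA hA' i hi1 hi2 ih
  -- the letter number `i` of `A` is the letter number `i + 1` of `star A`
  have e : n - k + (i - (n - k - 1)) = i + 1 := by omega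
  have h1 := hA (i - (n - k - 1)) (by omega)
  have h2 := hA' (i - (n - k - 1)) (by omega)
  rw [e] at h1 h2
  have s1 : ∀ X : ℕ → Bool, star X (i + 1) = X i := by
    intro X
    simp [star]
  rw [s1] at h1 h2
  by_cases hi0 : i = 0
  · subst hi0
    exfalso
    simp [star] at h1
  · rw [h1, h2]
    exact star_congr (i := i) (by omega) (by omega) ih

/-! ### The theorem -/

/-- The reply of player II: the complement of the first letter, followed by the word without its
last letter. -/
def reply {n : ℕ} (A : Fin n → Bool) : Fin n → Bool := fun j => star (wd A) j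

theorem reply_ne {n : ℕ} (hn : 1 ≤ n) (A : Fin n → Bool) : reply A ≠ A := by
  intro h
  have := congrFun h ⟨0, by omega⟩
  simp [reply, star, wd, show 0 < n by omega] at this

theorem upper_fin {n : ℕ} (hn : 2 ≤ n) (A B : Fin n → Bool) (hne : B ≠ A) :
    probBefore B A ≤ 2 / 3 + (wsum n (n - 1) (ov n (wd A) (wd A)) +
      2 * wsum n (n - 2) (ov (n - 1) (wd A) (wd A))) / 3 := by
  obtain ⟨hd, he⟩ := probBefore_eq (Z := fun b => if b then wd A else wd B)
    (fun j => by simp [wd_fin]) (fun j => by simp [wd_fin]) hne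
  rw [he]
  exact upper hn hd

theorem lower_fin {n : ℕ} (hn : 2 ≤ n) (A : Fin n → Bool) :
    2 / 3 - 4 / 3 * (wsum n (n - 1) (ov n (wd A) (star (wd A))) +
      2 * wsum n (n - 1) (ov n (star (wd A)) (star (wd A)))) ≤ probBefore (reply A) A := by
  obtain ⟨hd, he⟩ := probBefore_eq (B := reply A) (A := A)
    (Z := fun b => if b then wd A else star (wd A))
    (fun j => by simp [reply]) (fun j => by simp [wd_fin]) (reply_ne (by omega) A)
  rw [he]
  exact lower (Z := fun b => if b then wd A else star (wd A)) hn (by simp)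

theorem bounds {n : ℕ} (hn : 2 ≤ n) :
    2 / 3 - 4 * (n : ℝ) / 2 ^ n ≤ pRandOpt n ∧ pRandOpt n ≤ 2 / 3 + (n : ℝ) / 2 ^ n := by
  have h2 : (0 : ℝ) < 2 ^ n := by positivity
  have hcard : ∑ _A : Fin n → Bool, (2 / 3 : ℝ) = 2 ^ n * (2 / 3) := by
    rw [Finset.sum_const, Finset.card_univ, Fintype.card_fun, Fintype.card_bool,
      Fintype.card_fin, nsmul_eq_mul]
    push_cast
    ring
  have hx := sum_x hn
  have hy := sum_y hn
  have hh := sum_h hn
  have hg := sum_g hn
  have e1 : ((n - 1 : ℕ) : ℝ) = n - 1 := by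
    rw [Nat.cast_sub (by omega)]; simp
  have e2 : ((n - 2 : ℕ) : ℝ) = n - 2 := by
    rw [Nat.cast_sub (by omega)]; simp
  rw [e1] at hx hh hg
  rw [e2] at hy
  have hbdd : ∀ A : Fin n → Bool,
      BddAbove (Set.range fun B : {B : Fin n → Bool // B ≠ A} => probBefore B.1 A) := fun A =>
    (Set.finite_range _).bddAbove
  constructor
  · have hs : ∑ A : Fin n → Bool, (2 / 3 - 4 / 3 * (wsum n (n - 1) (ov n (wd A) (star (wd A))) +
        2 * wsum n (n - 1) (ov n (star (wd A)) (star (wd A))))) ≤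
        ∑ A : Fin n → Bool, ⨆ B : {B : Fin n → Bool // B ≠ A}, probBefore B.1 A := by
      apply Finset.sum_le_sum
      intro A _
      exact (lower_fin hn A).trans
        (le_ciSup (hbdd A) (⟨reply A, reply_ne (by omega) A⟩ : {B : Fin n → Bool // B ≠ A}))
    rw [Finset.sum_sub_distrib, hcard, ← Finset.mul_sum, Finset.sum_add_distrib,
      ← Finset.mul_sum] at hs
    unfold pRandOpt
    rw [le_div_iff₀ h2]
    have e3 : (2 / 3 - 4 * (n : ℝ) / 2 ^ n) * 2 ^ n = 2 ^ n * (2 / 3) - 4 * n := by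
      field_simp
    rw [e3]
    linarith
  · have hs : ∑ A : Fin n → Bool, (⨆ B : {B : Fin n → Bool // B ≠ A}, probBefore B.1 A) ≤
        ∑ A : Fin n → Bool, (2 / 3 + (wsum n (n - 1) (ov n (wd A) (wd A)) +
        2 * wsum n (n - 2) (ov (n - 1) (wd A) (wd A))) / 3) := by
      apply Finset.sum_le_sum
      intro A _
      have : Nonempty {B : Fin n → Bool // B ≠ A} := ⟨⟨reply A, reply_ne (by omega) A⟩⟩
      apply ciSup_le
      rintro ⟨B, hB⟩
      exact upper_fin hn A B hB
    rw [Finset.sum_add_distrib, hcard, ← Finset.sum_div, Finset.sum_add_distrib,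
      ← Finset.mul_sum] at hs
    unfold pRandOpt
    rw [div_le_iff₀ h2]
    have e3 : (2 / 3 + (n : ℝ) / 2 ^ n) * 2 ^ n = 2 ^ n * (2 / 3) + n := by
      field_simp
    rw [e3]
    linarith

theorem probBefore_mem {n : ℕ} (B A : Fin n → Bool) : probBefore B A ∈ Set.Icc (0 : ℝ) 1 :=
  ⟨measureReal_nonneg, measureReal_le_one⟩

/-- **Q1 of MP_988dcd_pr, answered affirmatively.**  For all `n ≥ 2`,
`2/3 - 4 n / 2^n ≤ p_n^{rand,opt} ≤ 2/3 + n / 2^n`; in particular
`p_n^{rand,opt} = 2/3 + O(n / 2^n)` as `n → ∞`. -/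
theorem result :
    (∀ n : ℕ, 2 ≤ n →
      2 / 3 - 4 * (n : ℝ) / 2 ^ n ≤ pRandOpt n ∧ pRandOpt n ≤ 2 / 3 + (n : ℝ) / 2 ^ n) ∧
    (fun n : ℕ => pRandOpt n - 2 / 3) =O[Filter.atTop] (fun n : ℕ => (n : ℝ) / 2 ^ n) := by
  refine ⟨fun n hn => bounds hn, ?_⟩
  apply Asymptotics.IsBigO.of_bound 4
  filter_upwards [Filter.eventually_ge_atTop 2] with n hn
  obtain ⟨h1, h2⟩ := bounds hn
  have h3 : (0 : ℝ) ≤ (n : ℝ) / 2 ^ n := by positivity
  have h4 : 4 * (n : ℝ) / 2 ^ n = 4 * ((n : ℝ) / 2 ^ n) := by ring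
  rw [Real.norm_eq_abs, Real.norm_eq_abs, abs_of_nonneg h3, abs_le]
  constructor <;> linarith

end Pool.Agent.Results.MP_988dcd_pr.TwoThirds
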